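import Mathlib
import Pool.Agent.K.MP_8de615_co.C2

set_option autoImplicit false

open Pool.Agent.P.MP_8de615_co in
theorem Pool.Agent.Results.MP_8de615_co.SortAsymptotics.result :
    ∃ C : ℝ, ∀ n : ℕ, 1 ≤ n → ∃ c : Cycles n, c.1 = finRotate n ∧ ∃ s : ℕ,
      (Gamma n).eccent c = s ∧ |(s : ℝ) - (8 - Real.pi) / 16 * (n : ℝ) ^ 2| ≤ C * n :=
  final
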